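import Pool.Agent.Helper65.CS.Goals

/-!
# The derandomized switching lemma (packet CS-DSW)
-/

namespace Pool.Agent.Helper40.CS

open Pool.Agent.Helper78.DT Pool.Agent.Helper51.ZP Pool.Agent.Helper65.CS
open scoped Classical

theorem cw_nonneg {V : Type} [DecidableEq V] (G : Finset V → ℝ) (hG : ∀ A, 0 ≤ G A) :
    ∀ (f : DL V) (z : V → Bool) (u : ℕ) (A : Finset V), 0 ≤ cw G f z u A := by
  intro f
  induction f with
  | nil =>
    intro z u A
    cases u with
    | zero => rw [cw]; exact hG A
    | succ u => rw [cw]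
  | cons e f ih =>
    intro z u A
    cases u with
    | zero => rw [cw]; exact hG A
    | succ u =>
      rw [cw]
      split_ifs with h
      · refine Finset.sum_nonneg fun B _ => Finset.sum_nonneg fun D _ => ?_
        split_ifs with h2
        · exact ih _ _ _
        · exact le_rfl
      · exact ih _ _ _

theorem dsw (hSwi : SwiStmt) (hCwb : CwbStmt) (hCwa : CwaStmt) (hWid : WidStmt) : DswStmt := by
  intro V _ _ Ω _ _ S f w u0 c g hg hw hcl hc hS
  set G : Ω → Finset V → ℝ := fun ω A => if A ⊆ S ω then (1 : ℝ) else 0 with hGdef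
  have hG0 : ∀ ω A, 0 ≤ G ω A := by
    intro ω A
    rw [hGdef]
    dsimp only
    split_ifs <;> norm_num
  have h1 : ∀ ω, (pr fun z => c ≤ dep f (rs (S ω) z)) ≤
      (if (∃ e ∈ f, u0 ≤ (e.1.filter fun p => p.1 ∈ S ω).card) then (1 : ℝ) else 0) +
        ∑ u ∈ Finset.Ico c (c + u0), 2 ^ u * av fun z => cw (G ω) f z u ∅ := by
    intro ω
    have hn : 0 ≤ ∑ u ∈ Finset.Ico c (c + u0), 2 ^ u * av fun z => cw (G ω) f z u ∅ :=
      Finset.sum_nonneg fun u _ => mul_nonneg (by positivity)
        (av_nonneg fun z => cw_nonneg (G ω) (hG0 ω) f z u ∅)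
    by_cases hW : ∃ e ∈ f, u0 ≤ (e.1.filter fun p => p.1 ∈ S ω).card
    · rw [if_pos hW]
      have := pr_le_one (fun z : V → Bool => c ≤ dep f (rs (S ω) z))
      linarith
    · rw [if_neg hW, zero_add]
      push Not at hW
      exact hSwi V (S ω) f c u0 hcl hc hW
  refine (av_mono h1).trans ?_
  rw [av_add]
  refine add_le_add ?_ ?_
  · have h2 := hWid V Ω S f w u0 g hg hw hcl (fun A hA => by
      have := hS A (by omega)
      rwa [hA] at this)
    refine le_trans (le_of_eq ?_) h2
    unfold pr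
    refine av_congr fun ω => ?_
    split_ifs <;> rfl
  · rw [av_sum]
    refine Finset.sum_le_sum fun u hu => ?_
    have hu' : u < c + u0 := (Finset.mem_Ico.mp hu).2
    rw [av_mul_left, av_comm]
    have h3 : ∀ z : V → Bool, (av fun ω => cw (G ω) f z u ∅) ≤ (4 * (w : ℝ)) ^ u * g ^ u := by
      intro z
      rw [hCwa V Ω G f z u ∅]
      refine hCwb V _ f w z u ∅ (g ^ u) hw (pow_nonneg hg u) fun A' hA' => ?_
      have hcard : A'.card = u := by simpa using hA'
      have h4 := hS A' (by omega)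
      rw [hcard] at h4
      refine le_trans (le_of_eq ?_) h4
      unfold pr
      refine av_congr fun ω => ?_
      rw [hGdef]
      dsimp only
      split_ifs <;> rfl
    have h5 : (av fun z : V → Bool => av fun ω => cw (G ω) f z u ∅) ≤ (4 * (w : ℝ)) ^ u * g ^ u :=
      av_le_of_le (by positivity) h3
    calc (2 : ℝ) ^ u * (av fun z : V → Bool => av fun ω => cw (G ω) f z u ∅)
        ≤ 2 ^ u * ((4 * (w : ℝ)) ^ u * g ^ u) := by gcongr
      _ = (8 * (w : ℝ) * g) ^ u := by
        rw [← mul_pow, ← mul_pow]; congr 1; ring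

end Pool.Agent.Helper40.CS
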