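import Pool.Agent.Helper6.CS.Goals2

/-!
# Project CS (MP_81e84b_lc), packet CS-TZ: words without variables
-/

namespace Pool.Agent.Helper40.CS

open Pool.Agent.Helper6.CS

set_option synthInstance.maxSize 1000000000

theorem t_TZ (hPREH : Pool.Agent.Helper6.CS.G_PREH) : Pool.Agent.Helper6.CS.G_TZ := by
  intro M _ a ℓ f hf hfl
  have z0 : ∀ x : M, 0 ≤ x := World.zero_le'
  rcases (z0 a).eq_or_lt with ha | ha
  · -- the empty alphabet
    subst ha
    refine ⟨fun p => p, inferInstance, ⟨fun i => ⟨i, (zero_add i).symm⟩, fun i p hp => ?_⟩,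
      f (inst 0 (fun p => p) (Wd.nil M)), fun v hv => ?_⟩
    · refine ⟨i, ?_, (zero_add i).symm⟩
      simp only [zero_add] at hp
      rw [hp]
      exact (World.lt_succ _ _).2 le_rfl
    · have hv0 : v.len = 0 := by
        by_contra h
        have h1 : 0 < v.len := lt_of_le_of_ne (z0 _) (Ne.symm h)
        have h2 := hv.1 0 h1
        rw [zero_add] at h2
        exact absurd h2 (not_lt.2 (z0 _))
      rw [Wd.eq_nil_of_len hv0]
  · have hf' : IFn M fun z : Wd M => f (Wd.sub a 0 z) := by infer_instance
    obtain ⟨W, hW, hOW, hc⟩ := hPREH M a 0 ℓ (fun z => f (Wd.sub a 0 z)) hf' (fun z => hfl _)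
    set W' : M → M := fun p => if W p < a then W p else if W p = a then 0 else W p - 1 with hW'
    have hIW' : IFn M W' := by rw [hW']; infer_instance
    -- the value at large letters
    have hbig : ∀ p d : M, W p = a + (1 + d) → W' p = a + d := by
      intro p d hp
      have h1 : ¬ W p < a := by rw [hp]; exact not_lt.2 (le_add_of_nonneg_right (z0 _))
      have h2 : W p ≠ a := by
        rw [hp]
        intro h3
        have h4 : a < a + (1 + d) := lt_add_of_pos_right _
          (lt_of_lt_of_le zero_lt_one (le_add_of_nonneg_right (z0 _)))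
        exact absurd h3 h4.ne'
      rw [hW']
      simp only
      rw [if_neg h1, if_neg h2, hp]
      have h5 : a + (1 + d) = a + d + 1 := by ring
      rw [h5, add_tsub_cancel_right]
    have hcases : ∀ p : M, (W p < a ∧ W' p = W p) ∨ (W p = a ∧ W' p = 0) ∨
        ∃ d, W p = a + (1 + d) ∧ W' p = a + d := by
      intro p
      rcases lt_trichotomy (W p) a with h | h | h
      · left
        refine ⟨h, ?_⟩
        rw [hW']
        simp only
        rw [if_pos h]
      · right; left
        refine ⟨h, ?_⟩
        rw [hW']
        simp only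
        rw [if_neg (not_lt.2 h.ge), if_pos h]
      · right; right
        obtain ⟨d, hd⟩ := World.exists_add _ _ (World.add_one_le h)
        have hd' : W p = a + (1 + d) := by rw [hd, add_assoc]
        exact ⟨d, hd', hbig p d hd'⟩
    have hiff : ∀ p i : M, W' p = a + i ↔ W p = a + (i + 1) := by
      intro p i
      constructor
      · intro h
        rcases hcases p with ⟨h1, h2⟩ | ⟨h1, h2⟩ | ⟨d, h1, h2⟩
        · rw [h2] at h
          rw [h] at h1
          exact absurd h1 (not_lt.2 (le_add_of_nonneg_right (z0 _)))
        · rw [h2] at h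
          exact absurd h (lt_of_lt_of_le ha (le_add_of_nonneg_right (z0 _))).ne
        · rw [h2] at h
          have : d = i := add_left_cancel h
          rw [h1, this, add_comm 1 i]
      · intro h
        exact hbig p i (by rw [h, add_comm 1 i])
    have hfo : ∀ i : M, fo a W' i = fo a W (i + 1) := by
      intro i
      unfold fo
      congr 1
      funext p
      exact propext (hiff p i)
    have hOW' : OW a W' := by
      refine ⟨fun i => ?_, fun i p hp => ?_⟩
      · obtain ⟨p, hp⟩ := hOW.1 (i + 1)
        exact ⟨p, (hiff p i).2 hp⟩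
      · obtain ⟨q, hq, hq2⟩ := hOW.2 (i + 1) p ((hiff p (i + 1)).1 hp)
        exact ⟨q, hq, (hiff q i).2 hq2⟩
    refine ⟨W', hIW', hOW', f (Wd.sub a 0 (inst a W (Wd.nil M ++ Wd.sg (a + 0)))), fun v hv => ?_⟩
    have hvo : Over a v := by
      have := hv.1
      rwa [add_zero] at this
    have hvlt : ∀ d : M, v.get d < a := by
      intro d
      rcases lt_or_ge d v.len with h | h
      · exact hvo d h
      · rw [v.supp d h]; exact ha
    have hIi : IFn M fun p => if W p < a then W p else (Wd.sg a ++ v).get (W p - a) := by
      infer_instance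
    have hIi' : IFn M fun p => if W' p < a then W' p else v.get (W' p - a) := by
      infer_instance
    have key : inst a W' v = Wd.sub a 0 (inst a W (Wd.nil M ++ Wd.sg (a + 0) ++ v)) := by
      rw [Wd.nil_append, add_zero]
      refine Wd.ext' ?_ fun p hp => ?_
      · rw [Wd.len_sub]
        unfold inst
        rw [Wd.len_of, Wd.len_of, hfo, Wd.len_append, Wd.len_sg, add_comm]
      · have hp1 : p < fo a W' v.len := by
          unfold inst at hp
          rwa [Wd.len_of] at hp
        have hp2 : p < fo a W (Wd.sg a ++ v).len := by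
          rw [hfo] at hp1
          rwa [Wd.len_append, Wd.len_sg, add_comm]
        have hp3 : p < (inst a W (Wd.sg a ++ v)).len := by
          unfold inst
          rwa [Wd.len_of]
        rw [Wd.get_sub _ _ _ hp3]
        unfold inst
        rw [Wd.get_of_lt _ _ hp1, Wd.get_of_lt _ _ hp2]
        rcases hcases p with ⟨h1, h2⟩ | ⟨h1, h2⟩ | ⟨d, h1, h2⟩
        · rw [if_pos (h2 ▸ h1), if_pos h1, if_neg h1.ne, h2]
        · have h3 : ¬ W p < a := not_lt.2 h1.ge
          have h4 : (Wd.sg a ++ v).get (W p - a) = a := by
            rw [h1, tsub_self, Wd.get_append_left _ _ (by simp), Wd.get_sg_zero]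
          rw [if_neg h3, h4, if_pos rfl, h2, if_pos ha]
        · have h3 : ¬ W p < a := by rw [h1]; exact not_lt.2 (le_add_of_nonneg_right (z0 _))
          have h5 : ¬ W' p < a := by rw [h2]; exact not_lt.2 (le_add_of_nonneg_right (z0 _))
          have h4 : (Wd.sg a ++ v).get (W p - a) = v.get d := by
            rw [h1, add_tsub_cancel_left]
            have h6 : (1 : M) + d = (Wd.sg a).len + d := by simp
            rw [h6, Wd.get_append_right]
          rw [if_neg h3, h4, if_neg (hvlt d).ne, if_neg h5, h2, add_tsub_cancel_left]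
    rw [key]
    have hnil : VW a 0 (Wd.nil M) := by
      refine ⟨Over.nil _, fun i hi => absurd hi (not_lt.2 (z0 i)), fun i p hp => ?_⟩
      rw [Wd.len_nil] at hp
      exact absurd hp (not_lt.2 (z0 p))
    have hov : Over (a + 0 + 1) v := by
      refine hvo.mono ?_
      rw [add_zero]
      exact le_add_of_nonneg_right zero_le_one
    exact hc (Wd.nil M) v hnil hov

end Pool.Agent.Helper40.CS
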